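import Pool.Agent.helper51.VF.SpecC

/-!
Row vf:ASP: an element which lies in `J` locally at all associated primes lies in `J`.
-/

set_option autoImplicit false

namespace Pool.Agent.VF

open Pool.Agent.PC Pool.Agent.QS MvPolynomial

universe u

/-- the ideal of all `b` with `b y ∈ J` -/
def ASP_col {R : Type u} [CommRing R] (J : Ideal R) (y : R) : Ideal R where
  carrier := {b | b * y ∈ J}
  add_mem' := by
    intro a b ha hb
    show (a + b) * y ∈ J
    rw [add_mul]
    exact J.add_mem ha hb
  zero_mem' := by
    show (0 : R) * y ∈ J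
    rw [zero_mul]
    exact J.zero_mem
  smul_mem' := by
    intro c a ha
    show (c * a) * y ∈ J
    rw [mul_assoc]
    exact J.mul_mem_left c ha

theorem ASP_mem {R : Type u} [CommRing R] (J : Ideal R) (y b : R) :
    b ∈ ASP_col J y ↔ b * y ∈ J := Iff.rfl

theorem ASP : ASP_stmt.{u} := by
  intro R _ _ J r h
  by_contra hr
  obtain ⟨P, ⟨x, hx, rfl⟩, hmax⟩ := set_has_maximal_iff_noetherian.2
    (inferInstance : IsNoetherian R R) {I : Ideal R | ∃ x : R, x * r ∉ J ∧ I = ASP_col J (x * r)}
    ⟨_, 1, by rwa [one_mul], rfl⟩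
  have hprime : (ASP_col J (x * r)).IsPrime := by
    refine ⟨?_, ?_⟩
    · intro htop
      apply hx
      have h1 : (1 : R) ∈ ASP_col J (x * r) := by
        rw [htop]
        exact Submodule.mem_top
      rw [ASP_mem, one_mul] at h1
      exact h1
    · intro a b hab
      by_contra hcon
      rw [not_or] at hcon
      obtain ⟨ha, hb⟩ := hcon
      have hbx : (b * x) * r ∉ J := by
        intro h1
        apply hb
        rw [ASP_mem, ← mul_assoc]
        exact h1
      refine hmax (ASP_col J ((b * x) * r)) ⟨b * x, hbx, rfl⟩ (lt_of_le_of_ne ?_ ?_)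
      · intro c hc
        rw [ASP_mem] at hc ⊢
        have h1 : c * (b * x * r) = b * (c * (x * r)) := by ring
        rw [h1]
        exact J.mul_mem_left b hc
      · intro heq
        apply ha
        rw [heq, ASP_mem]
        rw [ASP_mem] at hab
        have h1 : a * (b * x * r) = a * b * (x * r) := by ring
        rw [h1]
        exact hab
  have hle : J ≤ ASP_col J (x * r) := by
    intro c hc
    rw [ASP_mem]
    exact J.mul_mem_right _ hc
  obtain ⟨s, hs, hsx⟩ := h _ hprime hle x (fun b hb => by
    refine ⟨1, ?_, ?_⟩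
    · intro h1
      exact hprime.ne_top ((Ideal.eq_top_iff_one _).2 h1)
    · rw [one_mul]
      exact hb)
  exact hs hsx

end Pool.Agent.VF
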